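import Mathlib

set_option autoImplicit false

open scoped Matrix.Norms.L2Operator

namespace Pool.Agent.Helper547.OS

/-- A family of candidate matrix norms on a complex vector space `E`: for each `n`, a real function on
the `n × n` matrices over `E`. Scalar matrices always carry the operator norm on Euclidean space
(Mathlib's `Matrix.Norms.L2Operator`). -/
abbrev MatNorms (E : Type) : Type := (n : ℕ) → Matrix (Fin n) (Fin n) E → ℝ

/-- Ruan's axioms: `(E, N)` is an abstract operator space. -/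
structure IsOperatorSpace (E : Type) [AddCommGroup E] [Module ℂ E] (N : MatNorms E) : Prop where
  eq_zero_iff : ∀ (n : ℕ) (x : Matrix (Fin n) (Fin n) E), N n x = 0 ↔ x = 0
  smul : ∀ (n : ℕ) (c : ℂ) (x : Matrix (Fin n) (Fin n) E), N n (c • x) = ‖c‖ * N n x
  add_le : ∀ (n : ℕ) (x y : Matrix (Fin n) (Fin n) E), N n (x + y) ≤ N n x + N n y
  /-- the norm of a block diagonal matrix is the maximum of the norms of the blocks -/
  block : ∀ (m n : ℕ) (x : Matrix (Fin m) (Fin m) E) (y : Matrix (Fin n) (Fin n) E),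
    N (m + n) (Matrix.reindex finSumFinEquiv finSumFinEquiv (Matrix.fromBlocks x 0 0 y)) =
      max (N m x) (N n y)
  /-- `‖a x b‖ ≤ ‖a‖ ‖x‖ ‖b‖` for rectangular scalar matrices `a`, `b` -/
  bimodule : ∀ (m n : ℕ) (a : Matrix (Fin n) (Fin m) ℂ) (x : Matrix (Fin m) (Fin m) E)
    (b : Matrix (Fin m) (Fin n) ℂ),
    N n (Matrix.of fun i j => ∑ k, ∑ l, (a i k * b l j) • x k l) ≤ ‖a‖ * N m x * ‖b‖

/-- `‖u‖_cb ≤ C` for a linear map `u` between matrix normed spaces. -/
def CBLe {E F : Type} [AddCommGroup E] [Module ℂ E] [AddCommGroup F] [Module ℂ F]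
    (NE : MatNorms E) (NF : MatNorms F) (u : E →ₗ[ℂ] F) (C : ℝ) : Prop :=
  0 ≤ C ∧ ∀ (n : ℕ) (x : Matrix (Fin n) (Fin n) E), NF n (x.map u) ≤ C * NE n x

/-- Complete isometry of matrix normed spaces. -/
def CompletelyIsometric {E F : Type} [AddCommGroup E] [Module ℂ E] [AddCommGroup F] [Module ℂ F]
    (NE : MatNorms E) (NF : MatNorms F) : Prop :=
  ∃ u : E ≃ₗ[ℂ] F, ∀ (n : ℕ) (x : Matrix (Fin n) (Fin n) E), NF n (x.map u) = NE n x

/-- The operator space dual of a finite dimensional `(E, N)`: the norm of a matrix `(f i j)` of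
functionals is the cb norm of the map `E → M_n`, `x ↦ (f i j x)`, that is the least `C ≥ 0` with
`‖(f i j (x k l))‖ ≤ C ‖x‖` for all matrices `x` over `E`. -/
noncomputable def dualNorms {E : Type} [AddCommGroup E] [Module ℂ E] (N : MatNorms E) :
    MatNorms (Module.Dual ℂ E) :=
  fun n f => sInf {C : ℝ | 0 ≤ C ∧ ∀ (m : ℕ) (x : Matrix (Fin m) (Fin m) E),
    ‖(Matrix.of fun (p q : Fin m × Fin n) => f p.2 q.2 (x p.1 q.1) :
      Matrix (Fin m × Fin n) (Fin m × Fin n) ℂ)‖ ≤ C * N m x}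

/-- The norm of an `n × n` matrix of bounded operators on a Hilbert space `H`: its operator norm as an
operator on the direct sum of `n` copies of `H`. -/
noncomputable def opNorm (H : Type) [NormedAddCommGroup H] [InnerProductSpace ℂ H] (n : ℕ)
    (T : Matrix (Fin n) (Fin n) (H →L[ℂ] H)) : ℝ :=
  sInf {C : ℝ | 0 ≤ C ∧ ∀ ξ : Fin n → H, ∑ i, ‖∑ j, T i j (ξ j)‖ ^ 2 ≤ C ^ 2 * ∑ j, ‖ξ j‖ ^ 2}

/-- `u` is a linear map of `E` into the compact operators on `H`. -/
def CompactLinear (H : Type) [NormedAddCommGroup H] [InnerProductSpace ℂ H]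
    {E : Type} [AddCommGroup E] [Module ℂ E] (u : E → (H →L[ℂ] H)) : Prop :=
  (∀ (c : ℂ) (x y : E) (ξ : H), u (c • x + y) ξ = c • u x ξ + u y ξ) ∧
  ∀ x : E, IsCompactOperator (u x)

/-- `u` is a linear map of `E` into the compact operators on `H` with `‖u‖_cb ≤ A` and, as a map onto
its range, `‖u⁻¹‖_cb ≤ B` (in particular it is injective when `N 1` is a norm). -/
def CompactEmbedding (H : Type) [NormedAddCommGroup H] [InnerProductSpace ℂ H]
    {E : Type} [AddCommGroup E] [Module ℂ E] (N : MatNorms E) (u : E → (H →L[ℂ] H))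
    (A B : ℝ) : Prop :=
  CompactLinear H u ∧ 0 ≤ A ∧ 0 ≤ B ∧
  (∀ (n : ℕ) (x : Matrix (Fin n) (Fin n) E), opNorm H n (x.map u) ≤ A * N n x) ∧
  ∀ (n : ℕ) (x : Matrix (Fin n) (Fin n) E), N n x ≤ B * opNorm H n (x.map u)

/-- The infimum of `‖u‖_cb ‖u⁻¹‖_cb` over all linear isomorphisms `u` of the finite dimensional space
`E` onto spaces `F` of compact operators on `H`. -/
noncomputable def dSKin (H : Type) [NormedAddCommGroup H] [InnerProductSpace ℂ H]
    {E : Type} [AddCommGroup E] [Module ℂ E] (N : MatNorms E) : ℝ :=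
  sInf {r : ℝ | ∃ (u : E → (H →L[ℂ] H)) (A B : ℝ), CompactEmbedding H N u A B ∧ r = A * B}

/-- `d_SK(E)`: the Hilbert space is `ℓ_2`. -/
noncomputable def dSK {E : Type} [AddCommGroup E] [Module ℂ E] (N : MatNorms E) : ℝ :=
  dSKin (lp (fun _ : ℕ => ℂ) 2) N

/-- `ℓ_∞^2` with its minimal operator space structure. -/
noncomputable def linf2 : MatNorms (Fin 2 → ℂ) :=
  fun _ x => max ‖x.map (fun v => v 0)‖ ‖x.map (fun v => v 1)‖

/-- `ℓ_1^2` with its minimal operator space structure: the supremum over the functionals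
`v ↦ z 0 * v 0 + z 1 * v 1` with `|z i| ≤ 1`. -/
noncomputable def l12 : MatNorms (Fin 2 → ℂ) :=
  fun _ x => sSup {r : ℝ | ∃ z : Fin 2 → ℂ, (∀ i, ‖z i‖ ≤ 1) ∧
    r = ‖x.map (fun v => z 0 * v 0 + z 1 * v 1)‖}

/-- The row Hilbert space `R_k`: the norm of `x` is the norm of the row `(x_1, …, x_k)`. -/
noncomputable def row (k : ℕ) : MatNorms (Fin k → ℂ) :=
  fun n x => ‖(Matrix.of fun (a : Fin n) (p : Fin k × Fin n) => x a p.2 p.1 :
    Matrix (Fin n) (Fin k × Fin n) ℂ)‖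

/-- The column Hilbert space `C_k`. -/
noncomputable def col (k : ℕ) : MatNorms (Fin k → ℂ) :=
  fun n x => ‖(Matrix.of fun (p : Fin k × Fin n) (b : Fin n) => x p.2 b p.1 :
    Matrix (Fin k × Fin n) (Fin n) ℂ)‖

/-- The `ℓ_∞`-direct sum `ℂ ⊕ F`. -/
noncomputable def sumInf {F : Type} (N : MatNorms F) : MatNorms (ℂ × F) :=
  fun n x => max ‖x.map Prod.fst‖ (N n (x.map Prod.snd))

/-- The matrix norms of the matrix algebra `M_k`. -/
noncomputable def matAlg (k : ℕ) : MatNorms (Matrix (Fin k) (Fin k) ℂ) :=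
  fun n x => ‖(Matrix.of fun (p q : Fin n × Fin k) => x p.1 q.1 p.2 q.2 :
    Matrix (Fin n × Fin k) (Fin n × Fin k) ℂ)‖

/-- The operator space `ℓ_1`-direct sum `ℂ ⊕_1 F`: the norm of `x` is the supremum of the norms of
its images under the maps `(c, y) ↦ c • a + v y` into matrix algebras, with `‖a‖ ≤ 1` and
`v : F → M_k` completely contractive. -/
noncomputable def sumOne {F : Type} [AddCommGroup F] [Module ℂ F] (N : MatNorms F) :
    MatNorms (ℂ × F) :=
  fun n x => sSup {r : ℝ | ∃ (k : ℕ) (a : Matrix (Fin k) (Fin k) ℂ)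
    (v : F →ₗ[ℂ] Matrix (Fin k) (Fin k) ℂ), ‖a‖ ≤ 1 ∧ CBLe N (matAlg k) v 1 ∧
    r = matAlg k n (x.map (fun p => p.1 • a + v p.2))}

/-- The list of finite dimensional spaces in the question (dimension greater than one):
`ℓ_∞^2`, `ℓ_1^2`, and `R_k`, `C_k`, `ℂ ⊕ R_k`, `ℂ ⊕ C_k`, `ℂ ⊕_1 R_k`, `ℂ ⊕_1 C_k` for `k > 1`. -/
def InList {E : Type} [AddCommGroup E] [Module ℂ E] (N : MatNorms E) : Prop :=
  CompletelyIsometric N linf2 ∨ CompletelyIsometric N l12 ∨
  ∃ k : ℕ, 1 < k ∧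
    (CompletelyIsometric N (row k) ∨ CompletelyIsometric N (col k) ∨
     CompletelyIsometric N (sumInf (row k)) ∨ CompletelyIsometric N (sumInf (col k)) ∨
     CompletelyIsometric N (sumOne (row k)) ∨ CompletelyIsometric N (sumOne (col k)))

end Pool.Agent.Helper547.OS
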