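import Pool.Agent.Helper547.OS.Defs
import Pool.Agent.Helper547.A5
set_option autoImplicit false
open scoped Matrix.Norms.L2Operator
open scoped ComplexOrder
open Matrix

namespace Pool.Agent.Helper547.OS

section
variable {ι κ ν : Type*} [Fintype ι] [Fintype κ] [Fintype ν] [DecidableEq ι] [DecidableEq κ] [DecidableEq ν]

lemma l2_le_iff (A : Matrix ι κ ℂ) {C : ℝ} (hC : 0 ≤ C) :
    ‖A‖ ≤ C ↔ ∀ x : κ → ℂ, ∑ i, ‖(A *ᵥ x) i‖ ^ 2 ≤ C ^ 2 * ∑ j, ‖x j‖ ^ 2 := by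
  rw [Matrix.l2_opNorm_def, ContinuousLinearMap.opNorm_le_iff hC]
  constructor
  · intro h x
    have h1 := h (WithLp.toLp 2 x)
    have h2 := pow_le_pow_left₀ (norm_nonneg _) h1 2
    rw [mul_pow, EuclideanSpace.norm_eq, EuclideanSpace.norm_eq, Real.sq_sqrt (by positivity), Real.sq_sqrt (by positivity)] at h2
    exact h2
  · intro h x
    have h1 := h x.ofLp
    rw [EuclideanSpace.norm_eq, EuclideanSpace.norm_eq]
    have h3 : C * √(∑ i, ‖x.ofLp i‖ ^ 2) = √(C ^ 2 * ∑ i, ‖x.ofLp i‖ ^ 2) := by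
      rw [Real.sqrt_mul (by positivity), Real.sqrt_sq hC]
    rw [h3]
    exact Real.sqrt_le_sqrt h1

lemma l2_mulVec_le (A : Matrix ι κ ℂ) (x : κ → ℂ) :
    ∑ i, ‖(A *ᵥ x) i‖ ^ 2 ≤ ‖A‖ ^ 2 * ∑ j, ‖x j‖ ^ 2 :=
  (l2_le_iff A (norm_nonneg A)).1 le_rfl x

lemma sum_norm_sq_mulVec (A : Matrix ι κ ℂ) (x : κ → ℂ) :
    ((∑ i, ‖(A *ᵥ x) i‖ ^ 2 : ℝ) : ℂ) = star x ⬝ᵥ ((Aᴴ * A) *ᵥ x) := by
  have h1 : star x ⬝ᵥ ((Aᴴ * A) *ᵥ x) = star (A *ᵥ x) ⬝ᵥ (A *ᵥ x) := by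
    rw [← Matrix.mulVec_mulVec, Matrix.dotProduct_mulVec, Matrix.star_mulVec]
  rw [h1]
  simp only [dotProduct, Pi.star_apply]
  push_cast
  refine Finset.sum_congr rfl fun i _ => ?_
  rw [RCLike.star_def, mul_comm, Complex.mul_conj, Complex.normSq_eq_norm_sq]
  push_cast; rfl

lemma psd_of_norm_le {A : Matrix ι κ ℂ} {C : ℝ} (hC : 0 ≤ C) (h : ‖A‖ ≤ C) :
    (((C ^ 2 : ℝ) : ℂ) • (1 : Matrix κ κ ℂ) - Aᴴ * A).PosSemidef := by
  have hH : (((C ^ 2 : ℝ) : ℂ) • (1 : Matrix κ κ ℂ) - Aᴴ * A).IsHermitian := by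
    refine Matrix.IsHermitian.sub ?_ (Matrix.isHermitian_conjTranspose_mul_self A)
    rw [Matrix.IsHermitian, conjTranspose_smul, conjTranspose_one, RCLike.star_def, Complex.conj_ofReal]
  refine Matrix.PosSemidef.of_dotProduct_mulVec_nonneg hH ?_
  intro x
  have h1 := (l2_le_iff A hC).1 h x
  have h2 : star x ⬝ᵥ ((((C ^ 2 : ℝ) : ℂ) • (1 : Matrix κ κ ℂ) - Aᴴ * A) *ᵥ x) =
      ((C ^ 2 * ∑ j, ‖x j‖ ^ 2 - ∑ i, ‖(A *ᵥ x) i‖ ^ 2 : ℝ) : ℂ) := by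
    rw [Matrix.sub_mulVec, Matrix.smul_mulVec, Matrix.one_mulVec, dotProduct_sub, dotProduct_smul, ← sum_norm_sq_mulVec]
    push_cast
    congr 1
    rw [smul_eq_mul]
    congr 1
    simp only [dotProduct, Pi.star_apply]
    refine Finset.sum_congr rfl fun i _ => ?_
    rw [RCLike.star_def, mul_comm, Complex.mul_conj, Complex.normSq_eq_norm_sq]
    push_cast; rfl
  rw [h2]
  rw [Complex.zero_le_real]
  linarith

lemma contraction_mulVec {A : Matrix ι κ ℂ} (h : (1 - A * Aᴴ).PosSemidef) (x : κ → ℂ) :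
    ∑ i, ‖(A *ᵥ x) i‖ ^ 2 ≤ ∑ j, ‖x j‖ ^ 2 := by
  have h1 : ‖Aᴴ‖ ≤ 1 := by
    rw [l2_le_iff _ zero_le_one]
    intro y
    have h2 := (Complex.le_def.1 (h.dotProduct_mulVec_nonneg y)).1
    have h3 : star y ⬝ᵥ ((1 - A * Aᴴ) *ᵥ y) = ((∑ j, ‖y j‖ ^ 2 - ∑ i, ‖(Aᴴ *ᵥ y) i‖ ^ 2 : ℝ) : ℂ) := by
      rw [Matrix.sub_mulVec, Matrix.one_mulVec, dotProduct_sub]
      have := sum_norm_sq_mulVec Aᴴ y
      rw [conjTranspose_conjTranspose] at this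
      rw [← this]
      push_cast
      congr 1
      simp only [dotProduct, Pi.star_apply]
      refine Finset.sum_congr rfl fun i _ => ?_
      rw [RCLike.star_def, mul_comm, Complex.mul_conj, Complex.normSq_eq_norm_sq]
      push_cast; rfl
    rw [h3] at h2
    simp only [Complex.zero_re, Complex.ofReal_re] at h2
    linarith
  have h4 : ‖A‖ ≤ 1 := by
    rw [← Matrix.l2_opNorm_conjTranspose]; exact h1
  have := (l2_le_iff A zero_le_one).1 h4 x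
  simpa using this

/-- norm of a pair as an element of the space of affine functions -/
noncomputable def pn (A B : Matrix ι ι ℂ) : ℝ :=
  ⨆ s : Set.Icc (-1 : ℝ) 1, ‖A + ((s : ℝ) : ℂ) • B‖ / Real.sqrt (1 + (s : ℝ) * s)

lemma sqpos (s : ℝ) : 0 < 1 + s * s := by nlinarith [mul_self_nonneg s]

lemma rpos (s : ℝ) : 0 < Real.sqrt (1 + s * s) := Real.sqrt_pos.2 (sqpos s)

lemma rone (s : ℝ) : 1 ≤ Real.sqrt (1 + s * s) := by
  rw [Real.one_le_sqrt]; nlinarith [mul_self_nonneg s]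

instance : Nonempty (Set.Icc (-1 : ℝ) 1) := ⟨⟨0, by norm_num, by norm_num⟩⟩

lemma pn_bdd (A B : Matrix ι ι ℂ) :
    BddAbove (Set.range fun s : Set.Icc (-1 : ℝ) 1 => ‖A + ((s : ℝ) : ℂ) • B‖ / Real.sqrt (1 + (s : ℝ) * s)) := by
  refine ⟨‖A‖ + ‖B‖, ?_⟩
  rintro _ ⟨s, rfl⟩
  simp only
  rw [div_le_iff₀ (rpos _)]
  have h1 : ‖A + ((s : ℝ) : ℂ) • B‖ ≤ ‖A‖ + ‖B‖ := by
    refine (norm_add_le _ _).trans ?_
    rw [norm_smul, Complex.norm_real, Real.norm_eq_abs]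
    have : |(s : ℝ)| ≤ 1 := abs_le.2 s.2
    have := mul_le_mul_of_nonneg_right this (norm_nonneg B)
    linarith
  have h2 := rone (s : ℝ)
  have h3 : 0 ≤ ‖A‖ + ‖B‖ := by positivity
  nlinarith

lemma pn_nonneg (A B : Matrix ι ι ℂ) : 0 ≤ pn A B :=
  Real.iSup_nonneg fun _ => div_nonneg (norm_nonneg _) (rpos _).le

lemma le_pn (A B : Matrix ι ι ℂ) (s : ℝ) (hs : |s| ≤ 1) :
    ‖A + (s : ℂ) • B‖ ≤ pn A B * Real.sqrt (1 + s * s) := by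
  rw [← div_le_iff₀ (rpos s)]
  exact le_ciSup (pn_bdd A B) (⟨s, abs_le.1 hs⟩ : Set.Icc (-1 : ℝ) 1)

lemma pn_le {A B : Matrix ι ι ℂ} {C : ℝ}
    (h : ∀ s : ℝ, |s| ≤ 1 → ‖A + (s : ℂ) • B‖ ≤ C * Real.sqrt (1 + s * s)) : pn A B ≤ C := by
  refine ciSup_le fun s => ?_
  rw [div_le_iff₀ (rpos _)]
  exact h s (abs_le.2 s.2)

lemma norm_fst_le (A B : Matrix ι ι ℂ) : ‖A‖ ≤ pn A B := by
  have := le_pn A B 0 (by norm_num)
  simpa using this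

lemma norm_snd_le (A B : Matrix ι ι ℂ) : ‖B‖ ≤ 2 * pn A B := by
  have h1 := le_pn A B 1 (by norm_num)
  have h2 := le_pn A B (-1) (by norm_num)
  have h3 : (2 : ℂ) • B = (A + ((1 : ℝ) : ℂ) • B) - (A + ((-1 : ℝ) : ℂ) • B) := by
    rw [two_smul]; simp
  have h4 : 2 * ‖B‖ ≤ ‖A + ((1 : ℝ) : ℂ) • B‖ + ‖A + ((-1 : ℝ) : ℂ) • B‖ := by
    have : ‖(2 : ℂ) • B‖ = 2 * ‖B‖ := by rw [norm_smul]; simp
    rw [← this, h3]
    exact norm_sub_le _ _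
  have h5 : Real.sqrt (1 + 1 * 1) ≤ 2 := by
    rw [Real.sqrt_le_left (by norm_num)]; norm_num
  have h6 : Real.sqrt (1 + (-1) * (-1)) ≤ 2 := by
    rw [Real.sqrt_le_left (by norm_num)]; norm_num
  have h7 := pn_nonneg A B
  nlinarith

end

end Pool.Agent.Helper547.OS
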