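import Pool.Agent.Helper547.OS.P1
set_option autoImplicit false
open scoped Matrix.Norms.L2Operator
open scoped ComplexOrder
open Matrix

namespace Pool.Agent.Helper547.OS

section
variable {ι κ ι' κ' : Type*} [Fintype ι] [Fintype κ] [DecidableEq ι] [DecidableEq κ]
  [Fintype ι'] [Fintype κ'] [DecidableEq ι'] [DecidableEq κ']

lemma l2_submatrix_le (A : Matrix ι κ ℂ) (e : ι' ≃ ι) (f : κ' ≃ κ) : ‖A.submatrix e f‖ ≤ ‖A‖ := by
  rw [l2_le_iff _ (norm_nonneg A)]
  intro x
  have h1 : ∀ i, (A.submatrix e f *ᵥ x) i = (A *ᵥ (x ∘ f.symm)) (e i) := by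
    intro i
    simp only [Matrix.mulVec, dotProduct, Matrix.submatrix_apply, Function.comp_apply]
    rw [← Equiv.sum_comp f]
    simp
  simp only [h1]
  rw [Equiv.sum_comp e (fun i => ‖(A *ᵥ (x ∘ f.symm)) i‖ ^ 2)]
  have h2 := l2_mulVec_le A (x ∘ f.symm)
  refine h2.trans (le_of_eq ?_)
  congr 1
  simp only [Function.comp_apply]
  exact Equiv.sum_comp f.symm (fun j => ‖x j‖ ^ 2)

lemma l2_submatrix (A : Matrix ι κ ℂ) (e : ι' ≃ ι) (f : κ' ≃ κ) : ‖A.submatrix e f‖ = ‖A‖ := by
  apply le_antisymm (l2_submatrix_le A e f)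
  have := l2_submatrix_le (A.submatrix e f) e.symm f.symm
  simpa using this

lemma l2_fromBlocks (A : Matrix ι κ ℂ) (D : Matrix ι' κ' ℂ) : ‖fromBlocks A 0 0 D‖ = max ‖A‖ ‖D‖ := by
  have hm : 0 ≤ max ‖A‖ ‖D‖ := le_max_of_le_left (norm_nonneg A)
  apply le_antisymm
  · rw [l2_le_iff _ hm]
    intro x
    rw [Fintype.sum_sum_type, Fintype.sum_sum_type, mul_add]
    apply add_le_add
    · have h1 : ∀ i, (fromBlocks A 0 0 D *ᵥ x) (Sum.inl i) = (A *ᵥ (x ∘ Sum.inl)) i := by
        intro i; rw [fromBlocks_mulVec]; simp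
      simp only [h1]
      refine (l2_mulVec_le A _).trans ?_
      simp only [Function.comp_apply]
      exact mul_le_mul_of_nonneg_right (pow_le_pow_left₀ (norm_nonneg _) (le_max_left _ _) 2) (by positivity)
    · have h1 : ∀ i, (fromBlocks A 0 0 D *ᵥ x) (Sum.inr i) = (D *ᵥ (x ∘ Sum.inr)) i := by
        intro i; rw [fromBlocks_mulVec]; simp
      simp only [h1]
      refine (l2_mulVec_le D _).trans ?_
      simp only [Function.comp_apply]
      exact mul_le_mul_of_nonneg_right (pow_le_pow_left₀ (norm_nonneg _) (le_max_right _ _) 2) (by positivity)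
  · apply max_le
    · rw [l2_le_iff _ (norm_nonneg _)]
      intro x
      have h := l2_mulVec_le (fromBlocks A 0 0 D) (Sum.elim x 0)
      rw [Fintype.sum_sum_type, Fintype.sum_sum_type, fromBlocks_mulVec] at h
      simpa using h
    · rw [l2_le_iff _ (norm_nonneg _)]
      intro x
      have h := l2_mulVec_le (fromBlocks A 0 0 D) (Sum.elim 0 x)
      rw [Fintype.sum_sum_type, Fintype.sum_sum_type, fromBlocks_mulVec] at h
      simpa using h

end

/-- the matrix norms of the space of affine functions on the interval -/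
noncomputable def affN : MatNorms (ℂ × ℂ) := fun _ x => pn (x.map Prod.fst) (x.map Prod.snd)

lemma affN_operatorSpace : IsOperatorSpace (ℂ × ℂ) affN where
  eq_zero_iff n x := by
    constructor
    · intro h
      have h1 := norm_fst_le (x.map Prod.fst) (x.map Prod.snd)
      have h2 := norm_snd_le (x.map Prod.fst) (x.map Prod.snd)
      have h' : pn (x.map Prod.fst) (x.map Prod.snd) = 0 := h
      rw [h'] at h1 h2
      have h3 : x.map Prod.fst = 0 := norm_le_zero_iff.1 h1
      have h4 : x.map Prod.snd = 0 := norm_le_zero_iff.1 (by simpa using h2)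
      ext i j
      · exact congrFun (congrFun h3 i) j
      · exact congrFun (congrFun h4 i) j
    · rintro rfl
      apply le_antisymm _ (pn_nonneg _ _)
      apply pn_le
      intro s hs
      have : ((0 : Matrix (Fin n) (Fin n) (ℂ × ℂ)).map Prod.fst + (s : ℂ) • (0 : Matrix (Fin n) (Fin n) (ℂ × ℂ)).map Prod.snd) = 0 := by
        ext i j; simp
      rw [this]; simp
  smul n c x := by
    show pn _ _ = _ * pn _ _
    unfold pn
    rw [Real.mul_iSup_of_nonneg (norm_nonneg c)]
    congr 1
    funext s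
    have : ((c • x).map Prod.fst + ((s : ℝ) : ℂ) • (c • x).map Prod.snd) = c • (x.map Prod.fst + ((s : ℝ) : ℂ) • x.map Prod.snd) := by
      ext i j; simp; ring
    rw [this, norm_smul]; ring
  add_le n x y := by
    show pn _ _ ≤ pn _ _ + pn _ _
    apply pn_le
    intro s hs
    have : ((x + y).map Prod.fst + (s : ℂ) • (x + y).map Prod.snd) = (x.map Prod.fst + (s : ℂ) • x.map Prod.snd) + (y.map Prod.fst + (s : ℂ) • y.map Prod.snd) := by
      ext i j; simp; ring
    rw [this, add_mul]
    exact (norm_add_le _ _).trans (add_le_add (le_pn _ _ s hs) (le_pn _ _ s hs))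
  block m n x y := by
    have key : ∀ s : ℝ, ‖(Matrix.reindex finSumFinEquiv finSumFinEquiv (Matrix.fromBlocks x 0 0 y)).map Prod.fst
        + (s : ℂ) • (Matrix.reindex finSumFinEquiv finSumFinEquiv (Matrix.fromBlocks x 0 0 y)).map Prod.snd‖ =
        max ‖x.map Prod.fst + (s : ℂ) • x.map Prod.snd‖ ‖y.map Prod.fst + (s : ℂ) • y.map Prod.snd‖ := by
      intro s
      rw [← l2_fromBlocks, ← l2_submatrix (fromBlocks (x.map Prod.fst + (s : ℂ) • x.map Prod.snd) 0 0
        (y.map Prod.fst + (s : ℂ) • y.map Prod.snd)) finSumFinEquiv.symm finSumFinEquiv.symm]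
      congr 1
      ext i j
      simp only [Matrix.add_apply, Matrix.map_apply, Matrix.smul_apply, Matrix.reindex_apply, Matrix.submatrix_apply]
      rcases finSumFinEquiv.symm i with i' | i' <;> rcases finSumFinEquiv.symm j with j' | j' <;> simp
    show pn _ _ = max (pn _ _) (pn _ _)
    apply le_antisymm
    · apply pn_le
      intro s hs
      rw [key]
      apply max_le
      · refine (le_pn _ _ s hs).trans ?_
        exact mul_le_mul_of_nonneg_right (le_max_left _ _) (rpos s).le
      · refine (le_pn _ _ s hs).trans ?_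
        exact mul_le_mul_of_nonneg_right (le_max_right _ _) (rpos s).le
    · apply max_le
      · apply pn_le
        intro s hs
        have h1 := le_pn ((Matrix.reindex finSumFinEquiv finSumFinEquiv (Matrix.fromBlocks x 0 0 y)).map Prod.fst)
          ((Matrix.reindex finSumFinEquiv finSumFinEquiv (Matrix.fromBlocks x 0 0 y)).map Prod.snd) s hs
        rw [key] at h1
        exact (le_max_left _ _).trans h1
      · apply pn_le
        intro s hs
        have h1 := le_pn ((Matrix.reindex finSumFinEquiv finSumFinEquiv (Matrix.fromBlocks x 0 0 y)).map Prod.fst)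
          ((Matrix.reindex finSumFinEquiv finSumFinEquiv (Matrix.fromBlocks x 0 0 y)).map Prod.snd) s hs
        rw [key] at h1
        exact (le_max_right _ _).trans h1
  bimodule m n a x b := by
    show pn _ _ ≤ _ * pn _ _ * _
    apply pn_le
    intro s hs
    have h1 : ((Matrix.of fun i j => ∑ k, ∑ l, (a i k * b l j) • x k l).map Prod.fst
        + (s : ℂ) • (Matrix.of fun i j => ∑ k, ∑ l, (a i k * b l j) • x k l).map Prod.snd) =
        a * (x.map Prod.fst + (s : ℂ) • x.map Prod.snd) * b := by
      ext i j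
      simp only [Matrix.add_apply, Matrix.map_apply, Matrix.smul_apply, Matrix.of_apply, Matrix.mul_apply,
        Prod.fst_sum, Prod.snd_sum, Prod.smul_fst, Prod.smul_snd, smul_eq_mul, Finset.mul_sum, Finset.sum_mul]
      rw [← Finset.sum_add_distrib, Finset.sum_comm]
      rw [Finset.sum_comm]
      simp only [← Finset.sum_add_distrib]
      rw [Finset.sum_comm]
      refine Finset.sum_congr rfl fun k _ => Finset.sum_congr rfl fun l _ => ?_
      ring
    rw [h1]
    calc ‖a * (x.map Prod.fst + (s : ℂ) • x.map Prod.snd) * b‖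
        ≤ ‖a * (x.map Prod.fst + (s : ℂ) • x.map Prod.snd)‖ * ‖b‖ := Matrix.l2_opNorm_mul _ _
      _ ≤ (‖a‖ * ‖x.map Prod.fst + (s : ℂ) • x.map Prod.snd‖) * ‖b‖ :=
          mul_le_mul_of_nonneg_right (Matrix.l2_opNorm_mul _ _) (norm_nonneg _)
      _ ≤ (‖a‖ * (pn (x.map Prod.fst) (x.map Prod.snd) * Real.sqrt (1 + s * s))) * ‖b‖ := by
          apply mul_le_mul_of_nonneg_right _ (norm_nonneg _)
          exact mul_le_mul_of_nonneg_left (le_pn _ _ s hs) (norm_nonneg _)
      _ = _ := by ring

end Pool.Agent.Helper547.OS
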