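import Pool.Agent.Helper547.OS.P2
set_option autoImplicit false
open scoped Matrix.Norms.L2Operator
open scoped ComplexOrder
open Matrix

namespace Pool.Agent.Helper547.OS

lemma star_dot_self {κ : Type*} [Fintype κ] (x : κ → ℂ) :
    star x ⬝ᵥ x = ((∑ j, ‖x j‖ ^ 2 : ℝ) : ℂ) := by
  simp only [dotProduct, Pi.star_apply]
  push_cast
  refine Finset.sum_congr rfl fun i _ => ?_
  rw [RCLike.star_def, mul_comm, Complex.mul_conj, Complex.normSq_eq_norm_sq]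
  push_cast; rfl

lemma weighted_isometry {n κ : Type*} [Fintype n] [DecidableEq n] [Fintype κ] [DecidableEq κ]
    {t : κ → ℝ} {B : Matrix κ n ℂ}
    (hB : Bᴴ * B + Bᴴ * (diagonal (fun k => (t k : ℂ)) * diagonal (fun k => (t k : ℂ))) * B = 1)
    (v : n → ℂ) : ∑ k, (1 + t k * t k) * ‖(B *ᵥ v) k‖ ^ 2 = ∑ j, ‖v j‖ ^ 2 := by
  have h1 := sum_norm_sq_mulVec B v
  have h2 := sum_norm_sq_mulVec (diagonal (fun k => (t k : ℂ)) * B) v
  have h3 : ((diagonal (fun k => (t k : ℂ)) * B)ᴴ * (diagonal (fun k => (t k : ℂ)) * B)) =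
      Bᴴ * (diagonal (fun k => (t k : ℂ)) * diagonal (fun k => (t k : ℂ))) * B := by
    have hD : (diagonal (fun k => (t k : ℂ)))ᴴ = diagonal (fun k => (t k : ℂ)) := by
      rw [diagonal_conjTranspose]; congr 1; funext k; simp
    rw [conjTranspose_mul, hD]
    simp only [Matrix.mul_assoc]
  have h4 : star v ⬝ᵥ ((1 : Matrix n n ℂ) *ᵥ v) = ((∑ j, ‖v j‖ ^ 2 : ℝ) : ℂ) := by
    rw [Matrix.one_mulVec, star_dot_self]
  rw [← hB, Matrix.add_mulVec, dotProduct_add, ← h1, ← h3, ← h2, ← Complex.ofReal_add] at h4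
  have h5 := Complex.ofReal_injective h4
  rw [← h5, ← Finset.sum_add_distrib]
  refine Finset.sum_congr rfl fun k _ => ?_
  have h6 : ((diagonal (fun k => (t k : ℂ)) * B) *ᵥ v) k = (t k : ℂ) * (B *ᵥ v) k := by
    rw [← Matrix.mulVec_mulVec, Matrix.mulVec_diagonal]
  rw [h6, norm_mul, Complex.norm_real, mul_pow, Real.norm_eq_abs, sq_abs]
  ring

/-- tensor type estimate -/
lemma tensor_bound {m n : ℕ} (V0 V1 : Matrix (Fin m) (Fin m) ℂ) (Z0 Z1 : Matrix (Fin n) (Fin n) ℂ) :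
    ‖(Matrix.of fun (p q : Fin m × Fin n) => V0 p.1 q.1 * Z0 p.2 q.2 + V1 p.1 q.1 * Z1 p.2 q.2 :
      Matrix (Fin m × Fin n) (Fin m × Fin n) ℂ)‖ ≤
    pn ((((Real.sqrt 2 : ℝ) : ℂ) * Complex.I) • Z1) (((Real.sqrt 2 : ℝ) : ℂ) • Z0) * pn V0 V1 := by
  set P := pn ((((Real.sqrt 2 : ℝ) : ℂ) * Complex.I) • Z1) (((Real.sqrt 2 : ℝ) : ℂ) • Z0) with hP
  have hP0 : 0 ≤ P := pn_nonneg _ _
  set N := pn V0 V1 with hN
  have hN0 : 0 ≤ N := pn_nonneg _ _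
  suffices h : ∀ c : ℝ, N < c → ‖(Matrix.of fun (p q : Fin m × Fin n) => V0 p.1 q.1 * Z0 p.2 q.2 + V1 p.1 q.1 * Z1 p.2 q.2 :
      Matrix (Fin m × Fin n) (Fin m × Fin n) ℂ)‖ ≤ P * c by
    apply le_of_forall_pos_le_add
    intro δ hδ
    refine (h (N + δ / (P + 1)) (by have : 0 < δ / (P + 1) := by positivity
                                    linarith)).trans ?_
    have h1 : P * (δ / (P + 1)) ≤ δ := by
      rw [mul_div_assoc', div_le_iff₀ (by positivity)]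
      nlinarith
    nlinarith
  intro c hc
  have hc0 : 0 < c := lt_of_le_of_lt hN0 hc
  have hcc : (c : ℂ) ≠ 0 := by exact_mod_cast hc0.ne'
  set η : ℝ := 1 - (N / c) ^ 2 with hη
  have hNc : N / c < 1 := (div_lt_one hc0).2 hc
  have hNc0 : 0 ≤ N / c := by positivity
  have hηpos : 0 < η := by
    rw [hη]; nlinarith
  obtain ⟨t, B, A, ht, hB, hA, hU0, hU1⟩ := main_fact (((c⁻¹ : ℝ) : ℂ) • V0) (((c⁻¹ : ℝ) : ℂ) • V1) η hηpos (by
    intro r hr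
    have h1 : ‖((c⁻¹ : ℝ) : ℂ) • V0 + (r : ℂ) • ((c⁻¹ : ℝ) : ℂ) • V1‖ ≤ (N / c) * Real.sqrt (1 + r * r) := by
      have e1 : ((c⁻¹ : ℝ) : ℂ) • V0 + (r : ℂ) • ((c⁻¹ : ℝ) : ℂ) • V1 = ((c⁻¹ : ℝ) : ℂ) • (V0 + (r : ℂ) • V1) := by
        rw [smul_add, smul_comm (r : ℂ)]
      rw [e1, norm_smul, Complex.norm_real, Real.norm_of_nonneg (by positivity)]
      have := mul_le_mul_of_nonneg_left (le_pn V0 V1 r hr) (show 0 ≤ c⁻¹ by positivity)
      refine this.trans (le_of_eq ?_)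
      rw [← hN]; ring
    have h2 := psd_of_norm_le (by positivity) h1
    convert h2 using 1
    rw [mul_pow, Real.sq_sqrt (sqpos r).le]
    have e2 : ((1 + r * r : ℝ) : ℂ) • (1 : Matrix (Fin m) (Fin m) ℂ) = (((N / c) ^ 2 * (1 + r * r) : ℝ) : ℂ) • (1 : Matrix (Fin m) (Fin m) ℂ)
        + ((η * (1 + r * r) : ℝ) : ℂ) • (1 : Matrix (Fin m) (Fin m) ℂ) := by
      rw [← add_smul, ← Complex.ofReal_add, hη]
      congr 2
      ring
    rw [e2]
    abel)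
  have hV0 : ∀ i j, V0 i j = (c : ℂ) * ∑ k, A i k * (((Real.sqrt 2 : ℝ) : ℂ) * (t k : ℂ) * B k j) := by
    intro i j
    have h1 := congrFun (congrFun hU0 i) j
    rw [Matrix.smul_apply, smul_eq_mul, Matrix.mul_apply] at h1
    have h2 : V0 i j = (c : ℂ) * (((c⁻¹ : ℝ) : ℂ) * V0 i j) := by
      push_cast; field_simp
    rw [h2, h1]
    congr 1
    refine Finset.sum_congr rfl fun k _ => ?_
    rw [Matrix.smul_apply, smul_eq_mul, Matrix.diagonal_mul]; ring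
  have hV1 : ∀ i j, V1 i j = (c : ℂ) * ∑ k, A i k * (((Real.sqrt 2 : ℝ) : ℂ) * Complex.I * B k j) := by
    intro i j
    have h1 := congrFun (congrFun hU1 i) j
    rw [Matrix.smul_apply, smul_eq_mul, Matrix.mul_apply] at h1
    have h2 : V1 i j = (c : ℂ) * (((c⁻¹ : ℝ) : ℂ) * V1 i j) := by
      push_cast; field_simp
    rw [h2, h1]
    congr 1
  rw [l2_le_iff _ (by positivity)]
  intro ξ
  -- intermediate vectors
  set y : (Fin m ⊕ Fin m) → Fin n → ℂ := fun k b => (B *ᵥ (fun j => ξ (j, b))) k with hy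
  set G : (Fin m ⊕ Fin m) → Matrix (Fin n) (Fin n) ℂ := fun k =>
    (((Real.sqrt 2 : ℝ) : ℂ) * Complex.I) • Z1 + ((t k : ℝ) : ℂ) • (((Real.sqrt 2 : ℝ) : ℂ) • Z0) with hG
  have hout : ∀ i a, ((Matrix.of fun (p q : Fin m × Fin n) => V0 p.1 q.1 * Z0 p.2 q.2 + V1 p.1 q.1 * Z1 p.2 q.2 :
      Matrix (Fin m × Fin n) (Fin m × Fin n) ℂ) *ᵥ ξ) (i, a) =
      (c : ℂ) * (A *ᵥ (fun k => (G k *ᵥ y k) a)) i := by
    intro i a
    simp only [Matrix.mulVec, dotProduct, Matrix.of_apply]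
    rw [Fintype.sum_prod_type]
    simp only [hV0, hV1]
    simp only [Finset.mul_sum, Finset.sum_mul, hG, hy, Matrix.add_apply, Matrix.smul_apply, smul_eq_mul, Matrix.mulVec, dotProduct,
      ← Finset.sum_add_distrib]
    -- left: sum over j, b, k ; right: sum over k, b, j
    have e1 : ∀ (F : Fin m → Fin n → (Fin m ⊕ Fin m) → ℂ), ∑ j, ∑ b, ∑ k, F j b k = ∑ k, ∑ b, ∑ j, F j b k := by
      intro F
      rw [Finset.sum_comm]
      have : ∀ b, ∑ j, ∑ k, F j b k = ∑ k, ∑ j, F j b k := fun b => Finset.sum_comm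
      simp only [this]
      rw [Finset.sum_comm]
    rw [e1]
    refine Finset.sum_congr rfl fun k _ => Finset.sum_congr rfl fun b _ => Finset.sum_congr rfl fun j _ => ?_
    ring
  have hsum1 : ∑ p, ‖((Matrix.of fun (p q : Fin m × Fin n) => V0 p.1 q.1 * Z0 p.2 q.2 + V1 p.1 q.1 * Z1 p.2 q.2 :
      Matrix (Fin m × Fin n) (Fin m × Fin n) ℂ) *ᵥ ξ) p‖ ^ 2 =
      ∑ a, ∑ i, c ^ 2 * ‖(A *ᵥ (fun k => (G k *ᵥ y k) a)) i‖ ^ 2 := by
    rw [Fintype.sum_prod_type, Finset.sum_comm]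
    refine Finset.sum_congr rfl fun a _ => Finset.sum_congr rfl fun i _ => ?_
    rw [hout, norm_mul, mul_pow, Complex.norm_real, Real.norm_eq_abs, sq_abs]
  rw [hsum1]
  have hstep1 : ∀ a, ∑ i, c ^ 2 * ‖(A *ᵥ (fun k => (G k *ᵥ y k) a)) i‖ ^ 2 ≤ c ^ 2 * ∑ k, ‖(G k *ᵥ y k) a‖ ^ 2 := by
    intro a
    rw [← Finset.mul_sum]
    exact mul_le_mul_of_nonneg_left (contraction_mulVec hA _) (by positivity)
  refine (Finset.sum_le_sum fun a _ => hstep1 a).trans ?_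
  rw [← Finset.mul_sum, Finset.sum_comm]
  have hstep2 : ∀ k, ∑ a, ‖(G k *ᵥ y k) a‖ ^ 2 ≤ P ^ 2 * ∑ b, (1 + t k * t k) * ‖y k b‖ ^ 2 := by
    intro k
    have h1 : ‖G k‖ ≤ P * Real.sqrt (1 + t k * t k) := le_pn _ _ (t k) (ht k)
    have h2 := (l2_le_iff (G k) (by positivity)).1 h1 (y k)
    rw [mul_pow, Real.sq_sqrt (sqpos _).le, mul_assoc, Finset.mul_sum] at h2
    exact h2
  have hstep3 : ∑ k, ∑ a, ‖(G k *ᵥ y k) a‖ ^ 2 ≤ P ^ 2 * ∑ q, ‖ξ q‖ ^ 2 := by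
    refine (Finset.sum_le_sum fun k _ => hstep2 k).trans ?_
    rw [← Finset.mul_sum, Finset.sum_comm]
    apply mul_le_mul_of_nonneg_left _ (by positivity)
    rw [Fintype.sum_prod_type, Finset.sum_comm (f := fun (x : Fin m) (y : Fin n) => ‖ξ (x, y)‖ ^ 2)]
    apply le_of_eq
    refine Finset.sum_congr rfl fun b _ => ?_
    exact weighted_isometry hB (fun j => ξ (j, b))
  calc c ^ 2 * ∑ k, ∑ a, ‖(G k *ᵥ y k) a‖ ^ 2 ≤ c ^ 2 * (P ^ 2 * ∑ q, ‖ξ q‖ ^ 2) :=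
        mul_le_mul_of_nonneg_left hstep3 (by positivity)
    _ = (P * c) ^ 2 * ∑ q, ‖ξ q‖ ^ 2 := by ring

end Pool.Agent.Helper547.OS
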