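import Pool.Agent.Helper547.OS.P3
set_option autoImplicit false
open scoped Matrix.Norms.L2Operator
open scoped ComplexOrder
open Matrix

namespace Pool.Agent.Helper547.OS

lemma l2_const_one {z : ℂ} : ‖(Matrix.of fun (_ _ : Fin 1) => z : Matrix (Fin 1) (Fin 1) ℂ)‖ = ‖z‖ := by
  have : (Matrix.of fun (_ _ : Fin 1) => z : Matrix (Fin 1) (Fin 1) ℂ) = diagonal (fun _ => z) := by
    ext i j; fin_cases i; fin_cases j; simp
  rw [this, Matrix.l2_opNorm_diagonal, Pi.norm_def]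
  simp

/-- the one by one matrix norm of the extreme elements -/
lemma extreme_norm (s : ℝ) (hs : |s| ≤ 1) :
    affN 1 (Matrix.of fun _ _ => (((Real.sqrt 2 : ℝ) : ℂ) * (s : ℂ), ((Real.sqrt 2 : ℝ) : ℂ) * Complex.I)) ≤ Real.sqrt (1 + s * s) := by
  show pn _ _ ≤ _
  apply pn_le
  intro r hr
  have e0 : ((Matrix.of fun (_ _ : Fin 1) => ((((Real.sqrt 2 : ℝ) : ℂ) * (s : ℂ), ((Real.sqrt 2 : ℝ) : ℂ) * Complex.I) : ℂ × ℂ)).map Prod.fst
      + (r : ℂ) • (Matrix.of fun (_ _ : Fin 1) => ((((Real.sqrt 2 : ℝ) : ℂ) * (s : ℂ), ((Real.sqrt 2 : ℝ) : ℂ) * Complex.I) : ℂ × ℂ)).map Prod.snd)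
      = Matrix.of fun (_ _ : Fin 1) => (((Real.sqrt 2 : ℝ) : ℂ) * ((s : ℂ) + (r : ℂ) * Complex.I)) := by
    ext i j; simp; ring
  rw [e0, l2_const_one, norm_mul, Complex.norm_real, Real.norm_of_nonneg (by positivity)]
  have e2 : ‖(s : ℂ) + (r : ℂ) * Complex.I‖ = Real.sqrt (s * s + r * r) := by
    rw [Complex.norm_def, Complex.normSq_apply]
    simp
  rw [e2, ← Real.sqrt_mul (by norm_num), ← Real.sqrt_mul (sqpos s).le]
  apply Real.sqrt_le_sqrt
  have h1 := abs_le.1 hs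
  have h2 := abs_le.1 hr
  have h4 : 0 ≤ (1 - s * s) * (1 - r * r) := by
    apply mul_nonneg <;> nlinarith
  nlinarith

/-- the linear map from the dual -/
noncomputable def dualMap : Module.Dual ℂ (ℂ × ℂ) ≃ₗ[ℂ] (ℂ × ℂ) where
  toFun f := (((Real.sqrt 2 : ℝ) : ℂ) * Complex.I * f (0, 1), ((Real.sqrt 2 : ℝ) : ℂ) * f (1, 0))
  invFun p :=
    { toFun := fun x => x.1 * (((Real.sqrt 2 : ℝ) : ℂ)⁻¹ * p.2) + x.2 * (-(((Real.sqrt 2 : ℝ) : ℂ)⁻¹ * Complex.I * p.1))
      map_add' := fun x y => by simp only [Prod.fst_add, Prod.snd_add]; ring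
      map_smul' := fun c x => by simp only [Prod.smul_fst, Prod.smul_snd, smul_eq_mul, RingHom.id_apply]; ring }
  map_add' f g := by
    simp only [LinearMap.add_apply, Prod.mk_add_mk, Prod.mk.injEq]
    constructor <;> ring
  map_smul' c f := by
    simp only [LinearMap.smul_apply, RingHom.id_apply, Prod.smul_mk, smul_eq_mul, Prod.mk.injEq]
    constructor <;> ring
  left_inv f := by
    have hs : ((Real.sqrt 2 : ℝ) : ℂ) ≠ 0 := by
      exact_mod_cast (Real.sqrt_pos.2 (by norm_num : (0 : ℝ) < 2)).ne'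
    apply LinearMap.ext
    intro x
    have hx : x = x.1 • ((1, 0) : ℂ × ℂ) + x.2 • ((0, 1) : ℂ × ℂ) := by
      ext <;> simp
    have hfx : f x = x.1 * f (1, 0) + x.2 * f (0, 1) := by
      conv_lhs => rw [hx]
      rw [map_add, map_smul, map_smul, smul_eq_mul, smul_eq_mul]
    simp only [LinearMap.coe_mk, AddHom.coe_mk]
    rw [hfx]
    have hI := Complex.I_mul_I
    field_simp
    linear_combination (-(x.2 * f (0, 1))) * hI
  right_inv p := by
    have hs : ((Real.sqrt 2 : ℝ) : ℂ) ≠ 0 := by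
      exact_mod_cast (Real.sqrt_pos.2 (by norm_num : (0 : ℝ) < 2)).ne'
    have hI := Complex.I_mul_I
    simp only [LinearMap.coe_mk, AddHom.coe_mk]
    apply Prod.ext
    · simp only
      field_simp
      linear_combination (-p.1) * hI
    · simp only
      field_simp
      ring

lemma dual_norm_eq (n : ℕ) (f : Matrix (Fin n) (Fin n) (Module.Dual ℂ (ℂ × ℂ))) :
    dualNorms affN n f = affN n (f.map dualMap) := by
  set Z0 : Matrix (Fin n) (Fin n) ℂ := Matrix.of fun i j => f i j (1, 0) with hZ0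
  set Z1 : Matrix (Fin n) (Fin n) ℂ := Matrix.of fun i j => f i j (0, 1) with hZ1
  have hf : ∀ i j (x : ℂ × ℂ), f i j x = x.1 * Z0 i j + x.2 * Z1 i j := by
    intro i j x
    have hx : x = x.1 • ((1, 0) : ℂ × ℂ) + x.2 • ((0, 1) : ℂ × ℂ) := by
      ext <;> simp
    conv_lhs => rw [hx]
    rw [map_add, map_smul, map_smul, smul_eq_mul, smul_eq_mul]
    rfl
  have e1 : affN n (f.map dualMap) = pn ((((Real.sqrt 2 : ℝ) : ℂ) * Complex.I) • Z1) (((Real.sqrt 2 : ℝ) : ℂ) • Z0) := by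
    show pn _ _ = _
    congr 1
  rw [e1]
  set P := pn ((((Real.sqrt 2 : ℝ) : ℂ) * Complex.I) • Z1) (((Real.sqrt 2 : ℝ) : ℂ) • Z0) with hP
  apply le_antisymm
  · apply csInf_le
    · exact ⟨0, fun C hC => hC.1⟩
    · refine ⟨pn_nonneg _ _, ?_⟩
      intro m x
      have h1 := tensor_bound (x.map Prod.fst) (x.map Prod.snd) Z0 Z1
      have h2 : (Matrix.of fun (p q : Fin m × Fin n) => f p.2 q.2 (x p.1 q.1) :
          Matrix (Fin m × Fin n) (Fin m × Fin n) ℂ) = (Matrix.of fun (p q : Fin m × Fin n) =>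
          (x.map Prod.fst) p.1 q.1 * Z0 p.2 q.2 + (x.map Prod.snd) p.1 q.1 * Z1 p.2 q.2) := by
        ext p q
        simp only [Matrix.of_apply, hf, Matrix.map_apply]
      rw [h2]
      exact h1
  · apply le_csInf
    · refine ⟨P, pn_nonneg _ _, ?_⟩
      intro m x
      have h1 := tensor_bound (x.map Prod.fst) (x.map Prod.snd) Z0 Z1
      have h2 : (Matrix.of fun (p q : Fin m × Fin n) => f p.2 q.2 (x p.1 q.1) :
          Matrix (Fin m × Fin n) (Fin m × Fin n) ℂ) = (Matrix.of fun (p q : Fin m × Fin n) =>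
          (x.map Prod.fst) p.1 q.1 * Z0 p.2 q.2 + (x.map Prod.snd) p.1 q.1 * Z1 p.2 q.2) := by
        ext p q
        simp only [Matrix.of_apply, hf, Matrix.map_apply]
      rw [h2]
      exact h1
    · rintro C ⟨hC0, hC⟩
      apply pn_le
      intro s hs
      have h1 := hC 1 (Matrix.of fun _ _ => (((Real.sqrt 2 : ℝ) : ℂ) * (s : ℂ), ((Real.sqrt 2 : ℝ) : ℂ) * Complex.I))
      have h2 := extreme_norm s hs
      have h3 : ‖(((Real.sqrt 2 : ℝ) : ℂ) * Complex.I) • Z1 + (s : ℂ) • ((Real.sqrt 2 : ℝ) : ℂ) • Z0‖ =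
          ‖(Matrix.of fun (p q : Fin 1 × Fin n) => f p.2 q.2 ((Matrix.of fun (_ _ : Fin 1) =>
            ((((Real.sqrt 2 : ℝ) : ℂ) * (s : ℂ), ((Real.sqrt 2 : ℝ) : ℂ) * Complex.I) : ℂ × ℂ)) p.1 q.1) :
            Matrix (Fin 1 × Fin n) (Fin 1 × Fin n) ℂ)‖ := by
        rw [← l2_submatrix ((((Real.sqrt 2 : ℝ) : ℂ) * Complex.I) • Z1 + (s : ℂ) • ((Real.sqrt 2 : ℝ) : ℂ) • Z0)
          (Equiv.uniqueProd (Fin n) (Fin 1)) (Equiv.uniqueProd (Fin n) (Fin 1))]
        congr 1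
        ext p q
        simp only [Matrix.submatrix_apply, Matrix.add_apply, Matrix.smul_apply, smul_eq_mul, Matrix.of_apply, hf,
          Equiv.uniqueProd_apply]
        ring
      rw [h3]
      exact h1.trans (mul_le_mul_of_nonneg_left h2 hC0)

end Pool.Agent.Helper547.OS
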