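import Pool.Agent.Helper547.OS.P4
set_option autoImplicit false
open scoped Matrix.Norms.L2Operator
open scoped ComplexOrder InnerProductSpace
open Matrix

namespace Pool.Agent.Helper547.OS

/-- the Hilbert space of square summable sequences -/
abbrev Hl : Type := lp (fun _ : ℕ => ℂ) 2

/-- diagonal finite rank operator -/
noncomputable def dg (e : ℕ → Hl) (K : ℕ) : (Fin K → ℂ) →ₗ[ℂ] (Hl →L[ℂ] Hl) where
  toFun c := ∑ k : Fin K, c k • (innerSL ℂ (e k)).smulRight (e k)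
  map_add' c d := by
    rw [← Finset.sum_add_distrib]
    refine Finset.sum_congr rfl fun k _ => ?_
    rw [Pi.add_apply, add_smul]
  map_smul' a c := by
    rw [RingHom.id_apply, Finset.smul_sum]
    refine Finset.sum_congr rfl fun k _ => ?_
    rw [Pi.smul_apply, smul_eq_mul, mul_smul]

lemma dg_apply (e : ℕ → Hl) (K : ℕ) (c : Fin K → ℂ) (ξ : Hl) :
    dg e K c ξ = ∑ k : Fin K, (c k * ⟪e k, ξ⟫_ℂ) • e k := by
  show (∑ k : Fin K, c k • (innerSL ℂ (e k)).smulRight (e k)) ξ = _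
  rw [_root_.sum_apply]
  refine Finset.sum_congr rfl fun k _ => ?_
  simp [smul_smul]

lemma dg_compact (e : ℕ → Hl) (K : ℕ) (c : Fin K → ℂ) : IsCompactOperator (dg e K c) := by
  have h1 : ∀ k : Fin K, IsCompactOperator ((c k • (innerSL ℂ (e k)).smulRight (e k) : Hl →L[ℂ] Hl)) := by
    intro k
    have h2 : IsCompactOperator (innerSL ℂ (e k) : Hl →L[ℂ] ℂ) :=
      isCompactOperator_of_locallyCompactSpace_dom _
    have h3 := h2.clm_comp ((ContinuousLinearMap.toSpanSingleton ℂ (c k • e k)) : ℂ →L[ℂ] Hl)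
    have h5 : ⇑(c k • (innerSL ℂ (e k)).smulRight (e k) : Hl →L[ℂ] Hl) =
        (⇑((ContinuousLinearMap.toSpanSingleton ℂ (c k • e k)) : ℂ →L[ℂ] Hl) ∘ ⇑(innerSL ℂ (e k))) := by
      funext ξ
      simp [smul_smul, mul_comm]
    rw [h5]
    exact h3
  have h4 : (dg e K c) = ∑ k : Fin K, (c k • (innerSL ℂ (e k)).smulRight (e k) : Hl →L[ℂ] Hl) := rfl
  rw [h4]
  have : (∑ k : Fin K, (c k • (innerSL ℂ (e k)).smulRight (e k) : Hl →L[ℂ] Hl)) ∈
      compactOperator (RingHom.id ℂ) Hl Hl := by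
    apply Submodule.sum_mem
    intro k _
    exact h1 k
  exact this

lemma norm_sq_sum {e : ℕ → Hl} (he : Orthonormal ℂ e) (K : ℕ) (a : Fin K → ℂ) :
    ‖∑ k : Fin K, a k • e k‖ ^ 2 = ∑ k, ‖a k‖ ^ 2 := by
  have he' : Orthonormal ℂ (fun k : Fin K => e k) := he.comp _ Fin.val_injective
  have h1 := he'.inner_sum a a Finset.univ
  have h3 := inner_self_eq_norm_sq (𝕜 := ℂ) (∑ k : Fin K, a k • e k)
  rw [h1] at h3
  rw [← h3, map_sum]
  refine Finset.sum_congr rfl fun k _ => ?_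
  rw [mul_comm, Complex.mul_conj, Complex.normSq_eq_norm_sq]
  exact (Complex.ofReal_re _).symm

lemma block_apply {e : ℕ → Hl} (he : Orthonormal ℂ e) (K n : ℕ) (c : Fin n → Fin n → Fin K → ℂ) (ξ : Fin n → Hl) :
    ∑ i, ‖∑ j, (dg e K (c i j)) (ξ j)‖ ^ 2 =
      ∑ k : Fin K, ∑ i, ‖((Matrix.of fun i j => c i j k) *ᵥ (fun j => ⟪e k, ξ j⟫_ℂ)) i‖ ^ 2 := by
  rw [Finset.sum_comm]
  refine Finset.sum_congr rfl fun i _ => ?_
  have h1 : ∑ j, (dg e K (c i j)) (ξ j) = ∑ k : Fin K, (((Matrix.of fun i j => c i j k) *ᵥ (fun j => ⟪e k, ξ j⟫_ℂ)) i) • e k := by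
    simp only [dg_apply]
    rw [Finset.sum_comm]
    refine Finset.sum_congr rfl fun k _ => ?_
    rw [← Finset.sum_smul]
    rfl
  rw [h1, norm_sq_sum he]

lemma block_le {e : ℕ → Hl} (he : Orthonormal ℂ e) (K n : ℕ) (c : Fin n → Fin n → Fin K → ℂ) {C : ℝ} (hC : 0 ≤ C)
    (h : ∀ k, ‖(Matrix.of fun i j => c i j k : Matrix (Fin n) (Fin n) ℂ)‖ ≤ C) (ξ : Fin n → Hl) :
    ∑ i, ‖∑ j, (dg e K (c i j)) (ξ j)‖ ^ 2 ≤ C ^ 2 * ∑ j, ‖ξ j‖ ^ 2 := by
  rw [block_apply he]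
  have he' : Orthonormal ℂ (fun k : Fin K => e k) := he.comp _ Fin.val_injective
  calc ∑ k : Fin K, ∑ i, ‖((Matrix.of fun i j => c i j k) *ᵥ (fun j => ⟪e k, ξ j⟫_ℂ)) i‖ ^ 2
      ≤ ∑ k : Fin K, C ^ 2 * ∑ j, ‖⟪e k, ξ j⟫_ℂ‖ ^ 2 :=
        Finset.sum_le_sum fun k _ => (l2_le_iff _ hC).1 (h k) _
    _ = C ^ 2 * ∑ j, ∑ k : Fin K, ‖⟪e k, ξ j⟫_ℂ‖ ^ 2 := by
        rw [← Finset.mul_sum, Finset.sum_comm]
    _ ≤ C ^ 2 * ∑ j, ‖ξ j‖ ^ 2 := by
        apply mul_le_mul_of_nonneg_left _ (by positivity)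
        refine Finset.sum_le_sum fun j _ => ?_
        exact he'.sum_inner_products_le (ξ j)

lemma le_block {e : ℕ → Hl} (he : Orthonormal ℂ e) (K n : ℕ) (c : Fin n → Fin n → Fin K → ℂ) {C : ℝ} (hC : 0 ≤ C)
    (h : ∀ ξ : Fin n → Hl, ∑ i, ‖∑ j, (dg e K (c i j)) (ξ j)‖ ^ 2 ≤ C ^ 2 * ∑ j, ‖ξ j‖ ^ 2) (k : Fin K) :
    ‖(Matrix.of fun i j => c i j k : Matrix (Fin n) (Fin n) ℂ)‖ ≤ C := by
  rw [l2_le_iff _ hC]
  intro x
  have h1 := h (fun j => x j • e k)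
  rw [block_apply he] at h1
  have h2 : ∀ j, ‖x j • e (k : ℕ)‖ ^ 2 = ‖x j‖ ^ 2 := by
    intro j
    rw [norm_smul, he.1, mul_one]
  simp only [h2] at h1
  refine le_trans ?_ h1
  have h3 : (fun j => ⟪e (k : ℕ), x j • e (k : ℕ)⟫_ℂ) = x := by
    funext j
    rw [inner_smul_right, inner_self_eq_norm_sq_to_K, he.1]
    simp
  have h4 : ∑ i, ‖((Matrix.of fun i j => c i j k) *ᵥ x) i‖ ^ 2 =
      ∑ i, ‖((Matrix.of fun i j => c i j k) *ᵥ (fun j => ⟪e (k : ℕ), x j • e (k : ℕ)⟫_ℂ)) i‖ ^ 2 := by rw [h3]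
  rw [h4]
  exact Finset.single_le_sum (f := fun k' : Fin K => ∑ i, ‖((Matrix.of fun i j => c i j k') *ᵥ (fun j => ⟪e (k' : ℕ), x j • e (k : ℕ)⟫_ℂ)) i‖ ^ 2)
    (fun k' _ => by positivity) (Finset.mem_univ k)

/-- net points -/
noncomputable def pt (K : ℕ) (k : Fin (K + 1)) : ℝ := -1 + 2 * (k : ℝ) / K

lemma pt_mem {K : ℕ} (hK : 0 < K) (k : Fin (K + 1)) : |pt K k| ≤ 1 := by
  have hK' : (0 : ℝ) < K := by exact_mod_cast hK
  have h1 : (k : ℝ) ≤ K := by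
    have := k.is_le
    exact_mod_cast this
  have h0 : (0 : ℝ) ≤ (k : ℝ) := by positivity
  unfold pt
  rw [abs_le]
  constructor
  · have : 0 ≤ 2 * (k : ℝ) / K := by positivity
    linarith
  · have : 2 * (k : ℝ) / K ≤ 2 := by
      rw [div_le_iff₀ hK']; linarith
    linarith

lemma pt_net {K : ℕ} (hK : 0 < K) (s : ℝ) (hs : |s| ≤ 1) : ∃ k : Fin (K + 1), |s - pt K k| ≤ 2 / K := by
  have hK' : (0 : ℝ) < K := by exact_mod_cast hK
  have hs' := abs_le.1 hs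
  have h0 : 0 ≤ (s + 1) / 2 * K := by
    have : 0 ≤ s + 1 := by linarith
    positivity
  have h1 : (s + 1) / 2 * K ≤ K := by
    have : (s + 1) / 2 ≤ 1 := by linarith
    nlinarith
  have h2 : ⌊(s + 1) / 2 * K⌋₊ < K + 1 := by
    have : ⌊(s + 1) / 2 * K⌋₊ ≤ K := by
      exact Nat.floor_le_of_le h1
    omega
  refine ⟨⟨⌊(s + 1) / 2 * K⌋₊, h2⟩, ?_⟩
  have h3 := Nat.floor_le h0
  have h4 := Nat.lt_floor_add_one ((s + 1) / 2 * K)
  unfold pt
  simp only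
  have e1 : s - (-1 + 2 * (⌊(s + 1) / 2 * K⌋₊ : ℝ) / K) = (2 / K) * ((s + 1) / 2 * K - (⌊(s + 1) / 2 * K⌋₊ : ℝ)) := by
    field_simp
    ring
  rw [e1, abs_mul, abs_of_pos (by positivity : (0 : ℝ) < 2 / K), abs_of_nonneg (by linarith)]
  have : (s + 1) / 2 * K - (⌊(s + 1) / 2 * K⌋₊ : ℝ) ≤ 1 := by linarith
  have h5 : (0 : ℝ) < 2 / K := by positivity
  nlinarith

lemma sqrt_lip (s r : ℝ) : Real.sqrt (1 + r * r) ≤ Real.sqrt (1 + s * s) + |s - r| := by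
  rw [Real.sqrt_le_left (by positivity)]
  have h1 := Real.sq_sqrt (sqpos s).le
  have h2 : |s| ≤ Real.sqrt (1 + s * s) := by
    rw [Real.le_sqrt (abs_nonneg _) (sqpos s).le, sq_abs]; nlinarith
  have h3 : r * r = s * s - 2 * (s * (s - r)) + (s - r) ^ 2 := by ring
  have h4 : -(s * (s - r)) ≤ |s| * |s - r| := by
    rw [← abs_mul]; exact neg_le_abs _
  have h5 : |s| * |s - r| ≤ Real.sqrt (1 + s * s) * |s - r| := mul_le_mul_of_nonneg_right h2 (abs_nonneg _)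
  have h6 : |s - r| ^ 2 = (s - r) ^ 2 := sq_abs _
  nlinarith

lemma net_bound {ι : Type*} [Fintype ι] [DecidableEq ι] (A B : Matrix ι ι ℂ) {K : ℕ} (hK : 4 < K) {C : ℝ} (hC : 0 ≤ C)
    (h : ∀ k : Fin (K + 1), ‖A + ((pt K k : ℝ) : ℂ) • B‖ ≤ C * Real.sqrt (1 + pt K k * pt K k)) :
    pn A B ≤ ((1 + 2 / K) / (1 - 4 / K)) * C := by
  have hK0 : 0 < K := by omega
  have hK' : (4 : ℝ) < K := by exact_mod_cast hK
  have hK'' : (0 : ℝ) < K := by linarith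
  have hd : 0 < 1 - 4 / (K : ℝ) := by
    rw [sub_pos, div_lt_one hK'']; exact hK'
  have hB := norm_snd_le A B
  have hP := pn_nonneg A B
  set P := pn A B with hPdef
  have h1 : P ≤ C * (1 + 2 / K) + (2 / K) * (2 * P) := by
    apply pn_le
    intro s hs
    obtain ⟨k, hk⟩ := pt_net hK0 s hs
    have e1 : A + (s : ℂ) • B = (A + ((pt K k : ℝ) : ℂ) • B) + ((s - pt K k : ℝ) : ℂ) • B := by
      rw [add_assoc, ← add_smul]
      congr 2
      push_cast; ring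
    have h2 : ‖((s - pt K k : ℝ) : ℂ) • B‖ ≤ (2 / K) * (2 * P) := by
      rw [norm_smul, Complex.norm_real, Real.norm_eq_abs]
      exact mul_le_mul hk hB (norm_nonneg _) (by positivity)
    have h3 : Real.sqrt (1 + pt K k * pt K k) ≤ Real.sqrt (1 + s * s) + 2 / K := (sqrt_lip s (pt K k)).trans (by linarith)
    have h4 := rone s
    have h5 : 0 ≤ (2 / (K : ℝ)) * (2 * P) := by positivity
    have h6 : (0 : ℝ) < 2 / K := by positivity
    rw [e1]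
    calc ‖A + ((pt K k : ℝ) : ℂ) • B + ((s - pt K k : ℝ) : ℂ) • B‖
        ≤ ‖A + ((pt K k : ℝ) : ℂ) • B‖ + ‖((s - pt K k : ℝ) : ℂ) • B‖ := norm_add_le _ _
      _ ≤ C * Real.sqrt (1 + pt K k * pt K k) + (2 / K) * (2 * P) := add_le_add (h k) h2
      _ ≤ C * (Real.sqrt (1 + s * s) + 2 / K) + (2 / K) * (2 * P) := by
          have := mul_le_mul_of_nonneg_left h3 hC
          linarith
      _ ≤ (C * (1 + 2 / K) + (2 / K) * (2 * P)) * Real.sqrt (1 + s * s) := by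
          have e2 : (C * (1 + 2 / K) + (2 / K) * (2 * P)) * Real.sqrt (1 + s * s) - (C * (Real.sqrt (1 + s * s) + 2 / K) + (2 / K) * (2 * P))
            = (C * (2 / K) + (2 / K) * (2 * P)) * (Real.sqrt (1 + s * s) - 1) := by ring
          have e3 : 0 ≤ (C * (2 / K) + (2 / K) * (2 * P)) * (Real.sqrt (1 + s * s) - 1) := by
            apply mul_nonneg
            · positivity
            · linarith
          linarith
  rw [div_mul_eq_mul_div, le_div_iff₀ hd]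
  have e4 : (2 / (K : ℝ)) * (2 * P) = P * (4 / K) := by ring
  rw [e4] at h1
  linarith

end Pool.Agent.Helper547.OS
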