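import Pool.Agent.Helper547.OS.P5
import Pool.Agent.Helper547.A8
set_option autoImplicit false
open scoped Matrix.Norms.L2Operator
open scoped ComplexOrder InnerProductSpace
open Matrix

namespace Pool.Agent.Helper547.OS

/-- coordinates of an affine function on the net, weighted -/
noncomputable def co (K : ℕ) : (ℂ × ℂ) →ₗ[ℂ] (Fin (K + 1) → ℂ) where
  toFun x k := (((Real.sqrt (1 + pt K k * pt K k))⁻¹ : ℝ) : ℂ) * (x.1 + ((pt K k : ℝ) : ℂ) * x.2)
  map_add' x y := by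
    funext k
    simp only [Prod.fst_add, Prod.snd_add, Pi.add_apply]; ring
  map_smul' c x := by
    funext k
    simp only [Prod.smul_fst, Prod.smul_snd, Pi.smul_apply, smul_eq_mul, RingHom.id_apply]; ring

lemma co_matrix (K n : ℕ) (x : Matrix (Fin n) (Fin n) (ℂ × ℂ)) (k : Fin (K + 1)) :
    (Matrix.of fun i j => co K (x i j) k : Matrix (Fin n) (Fin n) ℂ) =
      (((Real.sqrt (1 + pt K k * pt K k))⁻¹ : ℝ) : ℂ) • (x.map Prod.fst + ((pt K k : ℝ) : ℂ) • x.map Prod.snd) := by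
  ext i j
  simp [co]

lemma co_norm (K n : ℕ) (x : Matrix (Fin n) (Fin n) (ℂ × ℂ)) (k : Fin (K + 1)) :
    ‖(Matrix.of fun i j => co K (x i j) k : Matrix (Fin n) (Fin n) ℂ)‖ * Real.sqrt (1 + pt K k * pt K k) =
      ‖x.map Prod.fst + ((pt K k : ℝ) : ℂ) • x.map Prod.snd‖ := by
  rw [co_matrix, norm_smul, Complex.norm_real, norm_inv, Real.norm_of_nonneg (rpos _).le]
  field_simp [(rpos (pt K k)).ne']

lemma affN_nonneg (n : ℕ) (x : Matrix (Fin n) (Fin n) (ℂ × ℂ)) : 0 ≤ affN n x := pn_nonneg _ _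

lemma co_norm_le {K : ℕ} (hK : 0 < K) (n : ℕ) (x : Matrix (Fin n) (Fin n) (ℂ × ℂ)) (k : Fin (K + 1)) :
    ‖(Matrix.of fun i j => co K (x i j) k : Matrix (Fin n) (Fin n) ℂ)‖ ≤ affN n x := by
  have h1 := le_pn (x.map Prod.fst) (x.map Prod.snd) (pt K k) (pt_mem hK k)
  rw [← co_norm] at h1
  exact le_of_mul_le_mul_right h1 (rpos _)

/-- constant in the net estimate -/
noncomputable def bc (K : ℕ) : ℝ := (1 + 2 / K) / (1 - 4 / K)

lemma le_of_co {K : ℕ} (hK : 4 < K) (n : ℕ) (x : Matrix (Fin n) (Fin n) (ℂ × ℂ)) {C : ℝ} (hC : 0 ≤ C)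
    (h : ∀ k : Fin (K + 1), ‖(Matrix.of fun i j => co K (x i j) k : Matrix (Fin n) (Fin n) ℂ)‖ ≤ C) :
    affN n x ≤ bc K * C := by
  apply net_bound _ _ hK hC
  intro k
  rw [← co_norm]
  exact mul_le_mul_of_nonneg_right (h k) (rpos _).le

lemma bc_pos {K : ℕ} (hK : 4 < K) : 0 < bc K := by
  have hK' : (4 : ℝ) < K := by exact_mod_cast hK
  have hK'' : (0 : ℝ) < K := by linarith
  have hd : 0 < 1 - 4 / (K : ℝ) := by
    rw [sub_pos, div_lt_one hK'']; exact hK'
  unfold bc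
  positivity

/-- a concrete orthonormal sequence -/
noncomputable def ons : ℕ → Hl := (default : HilbertBasis ℕ ℂ Hl)

lemma ons_orthonormal : Orthonormal ℂ ons := (default : HilbertBasis ℕ ℂ Hl).orthonormal

/-- the embedding into the compact operators -/
noncomputable def emb (K : ℕ) : (ℂ × ℂ) →ₗ[ℂ] (Hl →L[ℂ] Hl) := (dg ons (K + 1)).comp (co K)

lemma emb_injective {K : ℕ} (hK : 4 < K) : Function.Injective (emb K) := by
  rw [← LinearMap.ker_eq_bot, LinearMap.ker_eq_bot']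
  intro x hx
  have h1 : ∀ k : Fin (K + 1), ‖(Matrix.of fun i j => co K ((Matrix.of fun (_ _ : Fin 1) => x) i j) k : Matrix (Fin 1) (Fin 1) ℂ)‖ ≤ 0 := by
    intro k
    apply le_block ons_orthonormal (K + 1) 1 (fun i j => co K ((Matrix.of fun (_ _ : Fin 1) => x) i j)) le_rfl
    intro ξ
    have h2 : (dg ons (K + 1)) (co K x) = 0 := hx
    simp only [Matrix.of_apply, h2]
    simp
  have h3 := le_of_co hK 1 (Matrix.of fun (_ _ : Fin 1) => x) le_rfl h1
  rw [mul_zero] at h3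
  have h4 := (affN_operatorSpace.eq_zero_iff 1 _).1 (le_antisymm h3 (affN_nonneg _ _))
  have := congrFun (congrFun h4 0) 0
  exact this

lemma dSK_congr {E F : Type} [AddCommGroup E] [Module ℂ E] [AddCommGroup F] [Module ℂ F]
    {NE : MatNorms E} {NF : MatNorms F} (φ : E ≃ₗ[ℂ] F)
    (h : ∀ (n : ℕ) (x : Matrix (Fin n) (Fin n) E), NF n (x.map φ) = NE n x) : dSK NE = dSK NF := by
  unfold dSK dSKin
  congr 1
  ext r
  constructor
  · rintro ⟨u, A, B, ⟨⟨hlin, hcpt⟩, hA0, hB0, hA, hB⟩, rfl⟩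
    refine ⟨fun y => u (φ.symm y), A, B, ⟨⟨?_, fun y => hcpt _⟩, hA0, hB0, ?_, ?_⟩, rfl⟩
    · intro c x y ξ
      show u (φ.symm (c • x + y)) ξ = _
      rw [map_add, map_smul]; exact hlin _ _ _ _
    · intro n x
      have h1 := hA n (x.map φ.symm)
      have h2 : (x.map φ.symm).map φ = x := by
        ext i j; simp
      rw [← h, h2] at h1
      have h3 : (x.map φ.symm).map u = x.map (fun y => u (φ.symm y)) := by
        ext i j; simp
      rwa [h3] at h1
    · intro n x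
      have h1 := hB n (x.map φ.symm)
      have h2 : (x.map φ.symm).map φ = x := by
        ext i j; simp
      rw [← h, h2] at h1
      have h3 : (x.map φ.symm).map u = x.map (fun y => u (φ.symm y)) := by
        ext i j; simp
      rwa [h3] at h1
  · rintro ⟨u, A, B, ⟨⟨hlin, hcpt⟩, hA0, hB0, hA, hB⟩, rfl⟩
    refine ⟨fun y => u (φ y), A, B, ⟨⟨?_, fun y => hcpt _⟩, hA0, hB0, ?_, ?_⟩, rfl⟩
    · intro c x y ξ
      show u (φ (c • x + y)) ξ = _
      rw [map_add, map_smul]; exact hlin _ _ _ _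
    · intro n x
      have h1 := hA n (x.map φ)
      rw [h] at h1
      exact h1
    · intro n x
      have h1 := hB n (x.map φ)
      rw [h] at h1
      exact h1

lemma bc_lt {ε : ℝ} (hε : 0 < ε) : ∃ K : ℕ, 4 < K ∧ bc K < 1 + ε := by
  obtain ⟨K, hK⟩ := exists_nat_gt (max 4 ((6 + 4 * ε) / ε))
  have h4 : (4 : ℝ) < K := lt_of_le_of_lt (le_max_left _ _) hK
  have h5 : (6 + 4 * ε) / ε < K := lt_of_le_of_lt (le_max_right _ _) hK
  have h4' : 4 < K := by exact_mod_cast h4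
  refine ⟨K, h4', ?_⟩
  have hK'' : (0 : ℝ) < K := by linarith
  have hd : 0 < 1 - 4 / (K : ℝ) := by
    rw [sub_pos, div_lt_one hK'']; exact h4
  unfold bc
  rw [div_lt_iff₀ hd]
  rw [div_lt_iff₀ hε] at h5
  have h6 : (2 + 4 * (1 + ε)) / K < ε := by
    rw [div_lt_iff₀ hK'']; linarith
  have h7 : (1 + ε) * (1 - 4 / (K : ℝ)) = 1 + ε - 4 * (1 + ε) / K := by ring
  have h8 : (2 + 4 * (1 + ε)) / (K : ℝ) = 2 / K + 4 * (1 + ε) / K := by ring
  rw [h7]
  rw [h8] at h6
  linarith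

theorem dSK_affN : dSK affN = 1 := by
  have hmem : ∀ K : ℕ, 4 < K → bc K ∈ {r : ℝ | ∃ (u : (ℂ × ℂ) → (Hl →L[ℂ] Hl)) (A B : ℝ), CompactEmbedding Hl affN u A B ∧ r = A * B} := by
    intro K hK
    have hK0 : 0 < K := by omega
    refine ⟨emb K, 1, bc K, ⟨⟨?_, ?_⟩, zero_le_one, (bc_pos hK).le, ?_, ?_⟩, by rw [one_mul]⟩
    · intro c x y ξ; rw [map_add, map_smul]; rfl
    · intro x
      exact dg_compact _ _ _
    · intro n x
      rw [one_mul]
      apply csInf_le
      · exact ⟨0, fun C hC => hC.1⟩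
      · refine ⟨affN_nonneg n x, ?_⟩
        intro ξ
        exact block_le ons_orthonormal (K + 1) n (fun i j => co K (x i j)) (affN_nonneg n x) (fun k => co_norm_le hK0 n x k) ξ
    · intro n x
      have key : ∀ C : ℝ, (0 ≤ C ∧ ∀ ξ : Fin n → Hl,
          ∑ i, ‖∑ j, (x.map (emb K)) i j (ξ j)‖ ^ 2 ≤ C ^ 2 * ∑ j, ‖ξ j‖ ^ 2) → affN n x ≤ bc K * C := by
        rintro C ⟨hC0, hC⟩
        apply le_of_co hK n x hC0
        intro k
        apply le_block ons_orthonormal (K + 1) n (fun i j => co K (x i j)) hC0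
        intro ξ
        exact hC ξ
      have hle : affN n x / bc K ≤ opNorm Hl n (x.map (emb K)) := by
        apply le_csInf
        · refine ⟨affN n x, affN_nonneg n x, ?_⟩
          intro ξ
          exact block_le ons_orthonormal (K + 1) n (fun i j => co K (x i j)) (affN_nonneg n x) (fun k => co_norm_le hK0 n x k) ξ
        · intro C hC
          rw [div_le_iff₀ (bc_pos hK), mul_comm]
          exact key C hC
      rw [div_le_iff₀ (bc_pos hK), mul_comm] at hle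
      exact hle
  have hlow : ∀ r ∈ {r : ℝ | ∃ (u : (ℂ × ℂ) → (Hl →L[ℂ] Hl)) (A B : ℝ), CompactEmbedding Hl affN u A B ∧ r = A * B}, 1 ≤ r := by
    rintro r ⟨u, A, B, ⟨-, hA0, hB0, hA, hB⟩, rfl⟩
    set x : Matrix (Fin 1) (Fin 1) (ℂ × ℂ) := Matrix.of fun _ _ => (1, 0) with hx
    have hxpos : 0 < affN 1 x := by
      have h1 := norm_fst_le (x.map Prod.fst) (x.map Prod.snd)
      have h2 : x.map Prod.fst = Matrix.of fun (_ _ : Fin 1) => (1 : ℂ) := by
        ext i j; simp [hx]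
      rw [h2, l2_const_one, norm_one] at h1
      rw [← h2] at h1
      exact lt_of_lt_of_le one_pos h1
    have h1 := hA 1 x
    have h2 := hB 1 x
    have h4 : affN 1 x ≤ (A * B) * affN 1 x := by
      refine h2.trans ?_
      have := mul_le_mul_of_nonneg_left h1 hB0
      linarith
    by_contra hlt
    push Not at hlt
    nlinarith
  show sInf {r : ℝ | ∃ (u : (ℂ × ℂ) → (Hl →L[ℂ] Hl)) (A B : ℝ), CompactEmbedding Hl affN u A B ∧ r = A * B} = 1
  apply le_antisymm
  · apply le_of_forall_pos_le_add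
    intro ε hε
    obtain ⟨K, hK, hlt⟩ := bc_lt hε
    exact (csInf_le ⟨1, hlow⟩ (hmem K hK)).trans hlt.le
  · exact le_csInf ⟨_, hmem 5 (by norm_num)⟩ hlow

theorem dSK_dual_affN : dSK (dualNorms affN) = 1 := by
  rw [← dSK_affN]
  exact dSK_congr dualMap (fun n x => (dual_norm_eq n x).symm)

/-- link with the Banach space norm -/
lemma affN_one (p : ℂ × ℂ) : affN 1 (Matrix.of fun _ _ => p) = ‖el p‖ := by
  have h0 : ∀ s : ℝ, ‖(Matrix.of fun (_ _ : Fin 1) => p).map Prod.fst + (s : ℂ) • (Matrix.of fun (_ _ : Fin 1) => p).map Prod.snd‖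
      = ‖p.1 + (s : ℂ) * p.2‖ := by
    intro s
    rw [← l2_const_one]
    congr 1
  apply le_antisymm
  · apply pn_le
    intro s hs
    rw [h0]
    exact norm_ge p s hs
  · apply el_norm_le (affN_nonneg _ _)
    intro s hs
    rw [← h0]
    exact le_pn _ _ s hs

lemma not_linf2 : ¬ CompletelyIsometric affN linf2 := by
  rintro ⟨u, hu⟩
  apply no_linf_pair (p := u.symm ![1, 0]) (q := u.symm ![0, 1])
  intro a b
  rw [← affN_one, ← hu]
  have h1 : ((Matrix.of fun (_ _ : Fin 1) => (a • u.symm ![1, 0] + b • u.symm ![0, 1])).map u) =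
      Matrix.of fun (_ _ : Fin 1) => (![a, b] : Fin 2 → ℂ) := by
    ext i j k
    rw [Matrix.map_apply, Matrix.of_apply, Matrix.of_apply, map_add, map_smul, map_smul, LinearEquiv.apply_symm_apply,
      LinearEquiv.apply_symm_apply]
    fin_cases k <;> simp
  rw [h1]
  show max _ _ = _
  have h2 : (Matrix.of fun (_ _ : Fin 1) => (![a, b] : Fin 2 → ℂ)).map (fun v => v 0) = Matrix.of fun (_ _ : Fin 1) => a := by
    ext i j; simp
  have h3 : (Matrix.of fun (_ _ : Fin 1) => (![a, b] : Fin 2 → ℂ)).map (fun v => v 1) = Matrix.of fun (_ _ : Fin 1) => b := by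
    ext i j; simp
  rw [h2, h3, l2_const_one, l2_const_one]

lemma not_l12 : ¬ CompletelyIsometric affN l12 := by
  rintro ⟨u, hu⟩
  apply no_l1_pair (p := u.symm ![1, 0]) (q := u.symm ![0, 1])
  intro a b
  rw [← affN_one, ← hu]
  have h1 : ((Matrix.of fun (_ _ : Fin 1) => (a • u.symm ![1, 0] + b • u.symm ![0, 1])).map u) =
      Matrix.of fun (_ _ : Fin 1) => (![a, b] : Fin 2 → ℂ) := by
    ext i j k
    rw [Matrix.map_apply, Matrix.of_apply, Matrix.of_apply, map_add, map_smul, map_smul, LinearEquiv.apply_symm_apply,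
      LinearEquiv.apply_symm_apply]
    fin_cases k <;> simp
  rw [h1]
  show sSup _ = _
  have h2 : ∀ z : Fin 2 → ℂ, ‖(Matrix.of fun (_ _ : Fin 1) => (![a, b] : Fin 2 → ℂ)).map (fun v => z 0 * v 0 + z 1 * v 1)‖
      = ‖z 0 * a + z 1 * b‖ := by
    intro z
    rw [← l2_const_one]
    congr 1
  apply le_antisymm
  · apply csSup_le
    · exact ⟨_, 0, by simp, rfl⟩
    · rintro r ⟨z, hz, rfl⟩
      rw [h2]
      refine (norm_add_le _ _).trans ?_
      rw [norm_mul, norm_mul]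
      have h3 := mul_le_mul_of_nonneg_right (hz 0) (norm_nonneg a)
      have h4 := mul_le_mul_of_nonneg_right (hz 1) (norm_nonneg b)
      linarith
  · apply sup_phase
    intro w hw
    apply le_csSup
    · refine ⟨‖a‖ + ‖b‖, ?_⟩
      rintro r ⟨z, hz, rfl⟩
      rw [h2]
      refine (norm_add_le _ _).trans ?_
      rw [norm_mul, norm_mul]
      have h3 := mul_le_mul_of_nonneg_right (hz 0) (norm_nonneg a)
      have h4 := mul_le_mul_of_nonneg_right (hz 1) (norm_nonneg b)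
      linarith
    · refine ⟨![1, w], ?_, ?_⟩
      · intro i; fin_cases i <;> simp [hw]
      · rw [h2]; simp

lemma not_parallelogram (h : ∀ p q : ℂ × ℂ, ‖el (p + q)‖ ^ 2 + ‖el (p - q)‖ ^ 2 = 2 * ‖el p‖ ^ 2 + 2 * ‖el q‖ ^ 2) : False := by
  have h1 := h (1, 0) (0, 1)
  have h2 := norm_ge ((1, 0) + (0, 1)) 1 (by norm_num)
  have h3 := norm_ge ((1, 0) - (0, 1)) (-1) (by norm_num)
  have e1 : ‖((1, 0) + (0, 1) : ℂ × ℂ).1 + ((1 : ℝ) : ℂ) * ((1, 0) + (0, 1) : ℂ × ℂ).2‖ = 2 := by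
    simp; norm_num
  have e2 : ‖((1, 0) - (0, 1) : ℂ × ℂ).1 + ((-1 : ℝ) : ℂ) * ((1, 0) - (0, 1) : ℂ × ℂ).2‖ = 2 := by
    simp; norm_num
  rw [e1] at h2
  rw [e2] at h3
  have hs2 : Real.sqrt (1 + 1 * 1) ^ 2 = 2 := by rw [Real.sq_sqrt (by norm_num)]; norm_num
  have hs2' : Real.sqrt (1 + (-1) * (-1)) ^ 2 = 2 := by rw [Real.sq_sqrt (by norm_num)]; norm_num
  have h4 : 2 ≤ ‖el ((1, 0) + (0, 1))‖ ^ 2 := by
    have := pow_le_pow_left₀ (by norm_num) h2 2
    rw [mul_pow, hs2] at this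
    linarith
  have h5 : 2 ≤ ‖el ((1, 0) - (0, 1))‖ ^ 2 := by
    have := pow_le_pow_left₀ (by norm_num) h3 2
    rw [mul_pow, hs2'] at this
    linarith
  have h6 : ‖el (1, 0)‖ ≤ 1 := by
    apply el_norm_le zero_le_one
    intro s hs
    simp only [mul_zero, add_zero, norm_one, one_mul]
    exact rone s
  have h7 : ‖el (0, 1)‖ ≤ Real.sqrt (1 / 2) := by
    apply el_norm_le (Real.sqrt_nonneg _)
    intro s hs
    simp only [mul_one, zero_add, Complex.norm_real, Real.norm_eq_abs]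
    rw [← Real.sqrt_mul (by norm_num), Real.le_sqrt (abs_nonneg _) (by nlinarith [mul_self_nonneg s]), sq_abs]
    have := one_sub_sq_nonneg hs
    nlinarith
  have h8 : ‖el (1, 0)‖ ^ 2 ≤ 1 := by
    have := pow_le_pow_left₀ (norm_nonneg _) h6 2
    simpa using this
  have h9 : ‖el (0, 1)‖ ^ 2 ≤ 1 / 2 := by
    have := pow_le_pow_left₀ (norm_nonneg _) h7 2
    rwa [Real.sq_sqrt (by norm_num)] at this
  linarith

lemma row_sq {κ : Type*} [Fintype κ] [DecidableEq κ] (w : κ → ℂ) :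
    ‖(Matrix.of fun (_ : Fin 1) (p : κ) => w p : Matrix (Fin 1) κ ℂ)‖ ^ 2 = ∑ p, ‖w p‖ ^ 2 := by
  set A : Matrix (Fin 1) κ ℂ := Matrix.of fun (_ : Fin 1) (p : κ) => w p with hA
  have h1 := Matrix.l2_opNorm_conjTranspose_mul_self Aᴴ
  rw [conjTranspose_conjTranspose, Matrix.l2_opNorm_conjTranspose] at h1
  have h2 : A * Aᴴ = Matrix.of fun (_ _ : Fin 1) => ((∑ p, ‖w p‖ ^ 2 : ℝ) : ℂ) := by
    ext i j
    rw [Matrix.mul_apply, Matrix.of_apply]
    push_cast
    refine Finset.sum_congr rfl fun p _ => ?_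
    rw [conjTranspose_apply, hA, Matrix.of_apply, Matrix.of_apply, RCLike.star_def, Complex.mul_conj, Complex.normSq_eq_norm_sq]
    push_cast; rfl
  rw [h2, l2_const_one, Complex.norm_real, Real.norm_of_nonneg (by positivity)] at h1
  rw [sq, ← h1]

lemma col_sq {κ : Type*} [Fintype κ] [DecidableEq κ] (w : κ → ℂ) :
    ‖(Matrix.of fun (p : κ) (_ : Fin 1) => w p : Matrix κ (Fin 1) ℂ)‖ ^ 2 = ∑ p, ‖w p‖ ^ 2 := by
  set A : Matrix κ (Fin 1) ℂ := Matrix.of fun (p : κ) (_ : Fin 1) => w p with hA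
  have h1 := Matrix.l2_opNorm_conjTranspose_mul_self A
  have h2 : Aᴴ * A = Matrix.of fun (_ _ : Fin 1) => ((∑ p, ‖w p‖ ^ 2 : ℝ) : ℂ) := by
    ext i j
    rw [Matrix.mul_apply, Matrix.of_apply]
    push_cast
    refine Finset.sum_congr rfl fun p _ => ?_
    rw [conjTranspose_apply, hA, Matrix.of_apply, Matrix.of_apply, RCLike.star_def, mul_comm, Complex.mul_conj, Complex.normSq_eq_norm_sq]
    push_cast; rfl
  rw [h2, l2_const_one, Complex.norm_real, Real.norm_of_nonneg (by positivity)] at h1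
  rw [sq, ← h1]

lemma euclid_contra {k : ℕ} (u : (ℂ × ℂ) ≃ₗ[ℂ] (Fin k → ℂ)) (h : ∀ p : ℂ × ℂ, ‖el p‖ ^ 2 = ∑ i, ‖u p i‖ ^ 2) : False := by
  apply not_parallelogram
  intro p q
  rw [h, h, h, h, Finset.mul_sum, Finset.mul_sum, ← Finset.sum_add_distrib, ← Finset.sum_add_distrib]
  refine Finset.sum_congr rfl fun i _ => ?_
  rw [map_add, map_sub, Pi.add_apply, Pi.sub_apply]
  exact para _ _

lemma not_row (k : ℕ) : ¬ CompletelyIsometric affN (row k) := by
  rintro ⟨u, hu⟩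
  apply euclid_contra u
  intro p
  rw [← affN_one, ← hu]
  have h1 : row k 1 ((Matrix.of fun (_ _ : Fin 1) => p).map u) =
      ‖(Matrix.of fun (_ : Fin 1) (q : Fin k × Fin 1) => u p q.1 : Matrix (Fin 1) (Fin k × Fin 1) ℂ)‖ := rfl
  rw [h1, row_sq (fun q : Fin k × Fin 1 => u p q.1), Fintype.sum_prod_type]
  simp

lemma not_col (k : ℕ) : ¬ CompletelyIsometric affN (col k) := by
  rintro ⟨u, hu⟩
  apply euclid_contra u
  intro p
  rw [← affN_one, ← hu]
  have h1 : col k 1 ((Matrix.of fun (_ _ : Fin 1) => p).map u) =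
      ‖(Matrix.of fun (q : Fin k × Fin 1) (_ : Fin 1) => u p q.1 : Matrix (Fin k × Fin 1) (Fin 1) ℂ)‖ := rfl
  rw [h1, col_sq (fun q : Fin k × Fin 1 => u p q.1), Fintype.sum_prod_type]
  simp

lemma not_dim {k : ℕ} (hk : 1 < k) (N : MatNorms (ℂ × (Fin k → ℂ))) : ¬ CompletelyIsometric affN N := by
  rintro ⟨u, -⟩
  have h := u.finrank_eq
  rw [Module.finrank_prod, Module.finrank_prod, Module.finrank_self, Module.finrank_fintype_fun_eq_card, Fintype.card_fin] at h
  omega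

theorem not_inList : ¬ InList affN := by
  rintro (h | h | ⟨k, hk, h | h | h | h | h | h⟩)
  · exact not_linf2 h
  · exact not_l12 h
  · exact not_row k h
  · exact not_col k h
  · exact not_dim hk _ h
  · exact not_dim hk _ h
  · exact not_dim hk _ h
  · exact not_dim hk _ h

end Pool.Agent.Helper547.OS
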